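import Mathlib
import Pool.Agent.Helper69.TS.Stmts
import Pool.Agent.Helper73.RK.Main

/-!
# Construction of the data: a short interval of primes, the weights
-/

set_option autoImplicit false

open Finset Pool.Agent.Helper73.RK Pool.Agent.Helper69.TS

namespace Pool.Agent.Helper12.TS.build

/-! ### The short interval -/

theorem interval : S_interval := by
  intro R m hm hmR hR
  classical
  set s : ℕ := R / (8 * m) + 1 with hs
  have h8 : 0 < 8 * m := by omega
  have hsR : R < 8 * m * s := by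
    rw [hs, mul_add, mul_one]
    have := Nat.div_add_mod R (8 * m)
    have := Nat.mod_lt R h8
    omega
  have hcov : (dyadic (R - 1)) ⊆ (range (8 * m)).biUnion (fun i => PP R m (R + i * s)) := by
    intro p hp
    obtain ⟨h1, h2, h3⟩ := mem_dyadic (by omega) hp
    rw [Finset.mem_biUnion]
    have hs0 : 0 < s := Nat.succ_pos _
    set i := (p - R) / s with hi
    have hi1 : i * s ≤ p - R := Nat.div_mul_le_self _ _
    have hi2 : p - R < (i + 1) * s := by
      have h4 := Nat.div_add_mod (p - R) s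
      have h5 := Nat.mod_lt (p - R) hs0
      rw [← hi] at h4
      have h6 : (i + 1) * s = s * i + s := by ring
      omega
    refine ⟨i, ?_, ?_⟩
    · rw [Finset.mem_range]
      by_contra hcon
      push Not at hcon
      have h4 : 8 * m * s ≤ i * s := Nat.mul_le_mul_right _ hcon
      omega
    · unfold PP
      rw [Finset.mem_filter]
      refine ⟨hp, by omega, ?_⟩
      have h5 : p ≤ R + i * s + R / (8 * m) := by
        have h6 : (i + 1) * s = i * s + s := by ring
        omega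
      have h7 : 8 * m * (R / (8 * m)) ≤ R := Nat.mul_div_le _ _
      calc 8 * m * p ≤ 8 * m * (R + i * s + R / (8 * m)) := Nat.mul_le_mul_left _ h5
        _ = 8 * m * (R + i * s) + 8 * m * (R / (8 * m)) := by ring
        _ ≤ 8 * m * (R + i * s) + (R + i * s) := by omega
        _ = _ := by ring
  have h1 : (dyadic (R - 1)).card ≤ ∑ i ∈ range (8 * m), (PP R m (R + i * s)).card :=
    (Finset.card_le_card hcov).trans Finset.card_biUnion_le
  have h2 : ∃ i ∈ range (8 * m), (dyadic (R - 1)).card ≤ 8 * m * (PP R m (R + i * s)).card := by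
    by_contra hcon
    push Not at hcon
    have h3 : ∑ i ∈ range (8 * m), 8 * m * (PP R m (R + i * s)).card <
        ∑ _i ∈ range (8 * m), (dyadic (R - 1)).card := by
      refine Finset.sum_lt_sum_of_nonempty ?_ hcon
      exact ⟨0, Finset.mem_range.2 h8⟩
    rw [← Finset.mul_sum, Finset.sum_const, Finset.card_range, smul_eq_mul] at h3
    have h4 := lt_of_mul_lt_mul_left h3 (Nat.zero_le _)
    omega
  obtain ⟨i, hi, hcard⟩ := h2
  refine ⟨R + i * s, by omega, ?_, hcard⟩
  have hi' := Finset.mem_range.1 hi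
  have h4 : 8 * m * s ≤ R + 8 * m := by
    rw [hs, mul_add, mul_one]
    have := Nat.mul_div_le R (8 * m)
    omega
  have h5 : i * s ≤ 8 * m * s := Nat.mul_le_mul_right _ hi'.le
  omega

/-! ### Light points -/

theorem light_le : S_light := by
  intro P a N ρ
  classical
  calc ∑ p ∈ P, (light P a N ρ p).card
      = ∑ p ∈ P, ∑ n ∈ Icc (1 : ℤ) N,
          (if (p : ℤ) ∣ n - a p ∧ (AA P a n).card < ρ then 1 else 0) := by
        refine Finset.sum_congr rfl fun p _ => ?_
        unfold light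
        rw [Finset.card_filter]
    _ = ∑ n ∈ Icc (1 : ℤ) N, ∑ p ∈ P,
          (if (p : ℤ) ∣ n - a p ∧ (AA P a n).card < ρ then 1 else 0) := Finset.sum_comm
    _ ≤ ∑ n ∈ Icc (1 : ℤ) N, (if (AA P a n).Nonempty then ρ else 0) := by
        refine Finset.sum_le_sum fun n _ => ?_
        by_cases h : (AA P a n).card < ρ
        · have h1 : ∑ p ∈ P, (if (p : ℤ) ∣ n - a p ∧ (AA P a n).card < ρ then 1 else 0) =
              (AA P a n).card := by
            simp only [h, and_true]
            rw [AA, Finset.card_filter]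
          rw [h1]
          split_ifs with h2
          · exact h.le
          · rw [Finset.not_nonempty_iff_eq_empty] at h2
            rw [h2, Finset.card_empty]
        · simp only [h, and_false, if_false, Finset.sum_const_zero]
          exact Nat.zero_le _
    _ = ρ * ((Icc (1 : ℤ) N).filter (fun n => (AA P a n).Nonempty)).card := by
        rw [← Finset.sum_filter, Finset.sum_const, smul_eq_mul, mul_comm]

/-! ### The weights -/

section Weights

variable {P : Finset ℕ} {a : ℕ → ℤ} {N Q m ρ : ℕ}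

lemma meet_symm {p q : ℕ} {n : ℤ} (h : Meet a N p q n) : Meet a N q p n :=
  ⟨h.1, h.2.1, h.2.2.2, h.2.2.1⟩

lemma pt_eq (hP : ∀ p ∈ P, p.Prime ∧ Q ≤ p) (hN : N ≤ Q * Q) {p q : ℕ} (hp : p ∈ P) (hq : q ∈ P)
    (hpq : p ≠ q) {n : ℤ} (hn : Meet a N p q n) : pt a N p q = n :=
  meet_unique (hP p hp).1 (hP q hq).1 hpq
    (hN.trans (Nat.mul_le_mul (hP p hp).2 (hP q hq).2)) (pt_spec ⟨n, hn⟩) hn

lemma wt_nonneg (p q : ℕ) : 0 ≤ wt P a N ρ p q := by
  unfold wt
  split_ifs
  · positivity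
  · exact le_refl _

lemma wt_le_one (p q : ℕ) : wt P a N ρ p q ≤ 1 := by
  unfold wt
  split_ifs with h
  · have h1 := h.2.2.2.2
    refine div_le_one_of_le₀ ?_ (Nat.cast_nonneg _)
    exact_mod_cast h1
  · exact zero_le_one

lemma wt_symm (hP : ∀ p ∈ P, p.Prime ∧ Q ≤ p) (hN : N ≤ Q * Q) (p q : ℕ) :
    wt P a N ρ p q = wt P a N ρ q p := by
  by_cases h : p ∈ P ∧ q ∈ P ∧ p ≠ q ∧ ∃ n, Meet a N p q n
  · obtain ⟨hp, hq, hpq, n, hn⟩ := h
    have h1 : pt a N p q = n := pt_eq hP hN hp hq hpq hn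
    have h2 : pt a N q p = n := pt_eq hP hN hq hp hpq.symm (meet_symm hn)
    unfold wt
    rw [h1, h2]
    by_cases h3 : ρ ≤ (AA P a n).card
    · rw [if_pos ⟨hp, hq, hpq, ⟨n, hn⟩, h3⟩, if_pos ⟨hq, hp, hpq.symm, ⟨n, meet_symm hn⟩, h3⟩]
    · rw [if_neg (fun h => h3 h.2.2.2.2), if_neg (fun h => h3 h.2.2.2.2)]
  · unfold wt
    rw [if_neg, if_neg]
    · rintro ⟨h1, h2, h3, ⟨n, hn⟩, -⟩
      exact h ⟨h2, h1, h3.symm, n, meet_symm hn⟩
    · rintro ⟨h1, h2, h3, hn, -⟩
      exact h ⟨h1, h2, h3, hn⟩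

lemma ite_nonneg' (c : Prop) [Decidable c] (x y : ℕ) :
    (0 : ℝ) ≤ (if c then (x : ℝ) / (y : ℝ) else 0) := by
  split_ifs
  · positivity
  · exact le_refl _

/-- upper bound: the weights of the partners whose meeting points lie in a set -/
lemma sum_wt_le (T : Finset ℤ) {p : ℕ} (S : Finset ℕ)
    (hT : ∀ q ∈ S, wt P a N ρ p q ≠ 0 → pt a N p q ∈ T) :
    ∑ q ∈ S, wt P a N ρ p q ≤ ρ * T.card := by
  classical
  have h1 : ∀ q ∈ S, wt P a N ρ p q ≤ if q ∈ P then
      ∑ n ∈ T, (if (q : ℤ) ∣ n - a q then (ρ : ℝ) / (AA P a n).card else 0) else 0 := by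
    intro q hq
    have h0 : (0 : ℝ) ≤ ∑ n ∈ T, (if (q : ℤ) ∣ n - a q then (ρ : ℝ) / (AA P a n).card else 0) := by
      refine Finset.sum_nonneg fun n _ => ?_
      split_ifs
      · positivity
      · exact le_refl _
    by_cases hw : wt P a N ρ p q = 0
    · rw [hw]
      split_ifs
      · exact h0
      · exact le_refl _
    · have hmem := hT q hq hw
      unfold wt at hw ⊢
      have hc : p ∈ P ∧ q ∈ P ∧ p ≠ q ∧ (∃ n, Meet a N p q n) ∧
          ρ ≤ (AA P a (pt a N p q)).card := by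
        by_contra hcon
        exact hw (if_neg hcon)
      rw [if_pos hc, if_pos hc.2.1]
      have h2 := pt_spec hc.2.2.2.1
      have h3 : (ρ : ℝ) / (AA P a (pt a N p q)).card = (fun n : ℤ => (if (q : ℤ) ∣ n - a q then
          (ρ : ℝ) / (AA P a n).card else 0)) (pt a N p q) := by
        simp only
        rw [if_pos h2.2.2.2]
      rw [h3]
      refine Finset.single_le_sum (f := fun n : ℤ => (if (q : ℤ) ∣ n - a q then
          (ρ : ℝ) / (AA P a n).card else 0)) (fun n _ => ite_nonneg' _ ρ _) hmem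
  calc ∑ q ∈ S, wt P a N ρ p q
      ≤ ∑ q ∈ S, (if q ∈ P then
        ∑ n ∈ T, (if (q : ℤ) ∣ n - a q then (ρ : ℝ) / (AA P a n).card else 0) else 0) :=
        Finset.sum_le_sum h1
    _ = ∑ q ∈ S.filter (fun q => q ∈ P),
        ∑ n ∈ T, (if (q : ℤ) ∣ n - a q then (ρ : ℝ) / (AA P a n).card else 0) := by
        rw [Finset.sum_filter]
    _ ≤ ∑ q ∈ P, ∑ n ∈ T, (if (q : ℤ) ∣ n - a q then (ρ : ℝ) / (AA P a n).card else 0) := by
        refine Finset.sum_le_sum_of_subset_of_nonneg ?_ fun q _ _ => ?_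
        · intro q hq
          exact (Finset.mem_filter.1 hq).2
        · refine Finset.sum_nonneg fun n _ => ?_
          split_ifs
          · positivity
          · exact le_refl _
    _ = ∑ n ∈ T, ∑ q ∈ P, (if (q : ℤ) ∣ n - a q then (ρ : ℝ) / (AA P a n).card else 0) :=
        Finset.sum_comm
    _ ≤ ∑ _n ∈ T, (ρ : ℝ) := by
        refine Finset.sum_le_sum fun n _ => ?_
        rw [← Finset.sum_filter, Finset.sum_const, nsmul_eq_mul]
        change ((AA P a n).card : ℝ) * ((ρ : ℝ) / (AA P a n).card) ≤ ρ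
        rcases Nat.eq_zero_or_pos (AA P a n).card with h | h
        · rw [h, Nat.cast_zero, zero_mul]
          positivity
        · have h' : (0 : ℝ) < (AA P a n).card := by exact_mod_cast h
          rw [mul_div_cancel₀ _ h'.ne']
    _ = ρ * T.card := by rw [Finset.sum_const, nsmul_eq_mul, mul_comm]

/-- lower bound -/
lemma le_sum_wt (hP : ∀ p ∈ P, p.Prime ∧ Q ≤ p) (hN : N ≤ Q * Q) (hρ : 2 ≤ ρ) {p : ℕ} (hp : p ∈ P)
    (T : Finset ℤ) (hT : ∀ n ∈ T, (1 ≤ n ∧ n ≤ N) ∧ (p : ℤ) ∣ n - a p ∧ ρ ≤ (AA P a n).card) :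
    (ρ : ℝ) / 2 * T.card ≤ ∑ q ∈ P, wt P a N ρ p q := by
  classical
  have h1 : ∀ q ∈ P, ∑ n ∈ T, (if (q : ℤ) ∣ n - a q ∧ q ≠ p then (ρ : ℝ) / (AA P a n).card else 0) ≤
      wt P a N ρ p q := by
    intro q hq
    by_cases hex : ∃ n ∈ T, (q : ℤ) ∣ n - a q ∧ q ≠ p
    · obtain ⟨n, hn, hqn, hqp⟩ := hex
      obtain ⟨⟨hn1, hnN⟩, hpn, hρn⟩ := hT n hn
      have hmeet : Meet a N p q n := ⟨hn1, hnN, hpn, hqn⟩
      rw [Finset.sum_eq_single n]
      · rw [if_pos ⟨hqn, hqp⟩]
        unfold wt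
        rw [pt_eq hP hN hp hq hqp.symm hmeet, if_pos ⟨hp, hq, hqp.symm, ⟨n, hmeet⟩, hρn⟩]
      · intro n' hn' hne
        rw [if_neg]
        rintro ⟨hqn', -⟩
        obtain ⟨⟨hn1', hnN'⟩, hpn', -⟩ := hT n' hn'
        apply hne
        have h2 := pt_eq hP hN hp hq hqp.symm hmeet
        have h3 := pt_eq hP hN hp hq hqp.symm (n := n') ⟨hn1', hnN', hpn', hqn'⟩
        rw [← h2, ← h3]
      · intro h
        exact absurd hn h
    · push Not at hex
      rw [Finset.sum_eq_zero]
      · exact wt_nonneg p q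
      · intro n hn
        rw [if_neg]
        rintro ⟨h1, h2⟩
        exact h2 (hex n hn h1)
  have hρ' : (2 : ℝ) ≤ ρ := by exact_mod_cast hρ
  calc (ρ : ℝ) / 2 * T.card = ∑ _n ∈ T, (ρ : ℝ) / 2 := by
        rw [Finset.sum_const, nsmul_eq_mul, mul_comm]
    _ ≤ ∑ n ∈ T, ∑ q ∈ P, (if (q : ℤ) ∣ n - a q ∧ q ≠ p then (ρ : ℝ) / (AA P a n).card else 0) := by
        refine Finset.sum_le_sum fun n hn => ?_
        obtain ⟨⟨hn1, hnN⟩, hpn, hρn⟩ := hT n hn
        rw [← Finset.sum_filter, Finset.sum_const, nsmul_eq_mul]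
        have h2 : P.filter (fun q : ℕ => (q : ℤ) ∣ n - a q ∧ q ≠ p) = (AA P a n).erase p := by
          ext q
          rw [Finset.mem_filter, Finset.mem_erase, AA, Finset.mem_filter]
          tauto
        have h3 : p ∈ AA P a n := Finset.mem_filter.2 ⟨hp, hpn⟩
        rw [h2, Finset.card_erase_of_mem h3]
        set k := (AA P a n).card with hk
        have h4 : (ρ : ℝ) ≤ k := by exact_mod_cast hρn
        have h5 : ((k - 1 : ℕ) : ℝ) = k - 1 := by
          have : 1 ≤ k := by omega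
          push_cast [Nat.cast_sub this]
          ring
        rw [h5, mul_div_assoc', div_le_div_iff₀ (by norm_num) (by linarith)]
        nlinarith
    _ = ∑ q ∈ P, ∑ n ∈ T, (if (q : ℤ) ∣ n - a q ∧ q ≠ p then (ρ : ℝ) / (AA P a n).card else 0) :=
        Finset.sum_comm
    _ ≤ _ := Finset.sum_le_sum h1

/-- few integers of a short interval lie in a residue class -/
lemma card_short (T : Finset ℤ) (p L : ℕ) (hp : 0 < p)
    (hT : ∀ x ∈ T, ∀ y ∈ T, (p : ℤ) ∣ x - y ∧ x - y ≤ L) : T.card ≤ L / p + 1 := by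
  rcases T.eq_empty_or_nonempty with rfl | hne
  · simp
  · have hp' : (0 : ℤ) < p := by exact_mod_cast hp
    set x₀ := T.min' hne with hx₀
    have hx₀T : x₀ ∈ T := T.min'_mem hne
    have hmin : ∀ x ∈ T, x₀ ≤ x := fun x hx => T.min'_le x hx
    have hcard : T.card ≤ (range (L / p + 1)).card := by
      refine Finset.card_le_card_of_injOn (fun x => ((x - x₀) / p).toNat) ?_ ?_
      · intro x hx
        have hx' : x ∈ T := by simpa using hx
        obtain ⟨h1, h2⟩ := hT x hx' x₀ hx₀T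
        have h3 := hmin x hx'
        rw [Finset.mem_coe, Finset.mem_range]
        have h4 : (x - x₀) / p ≤ (L : ℤ) / p := Int.ediv_le_ediv hp' h2
        have h5 : (0 : ℤ) ≤ (x - x₀) / p := Int.ediv_nonneg (by omega) hp'.le
        have h6 : (L : ℤ) / p = ((L / p : ℕ) : ℤ) := by push_cast; rfl
        rw [h6] at h4
        simp only
        omega
      · intro x hx y hy hxy
        have hx' : x ∈ T := by simpa using hx
        have hy' : y ∈ T := by simpa using hy
        simp only at hxy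
        have h5 : (0 : ℤ) ≤ (x - x₀) / p := Int.ediv_nonneg (by have := hmin x hx'; omega) hp'.le
        have h6 : (0 : ℤ) ≤ (y - x₀) / p := Int.ediv_nonneg (by have := hmin y hy'; omega) hp'.le
        have h7 : (x - x₀) / p = (y - x₀) / p := by omega
        have h8 := Int.ediv_mul_cancel (hT x hx' x₀ hx₀T).1
        have h9 := Int.ediv_mul_cancel (hT y hy' x₀ hx₀T).1
        rw [h7] at h8
        omega
    rwa [Finset.card_range] at hcard

end Weights

theorem build_good : S_build := by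
  intro P B a N Q m ρ hm hρ hQ hP hne hN hN' hBP hB hL
  have hP' : ∀ p ∈ P, p.Prime ∧ Q ≤ p := fun p hp => ⟨(hP p hp).1, (hP p hp).2.1⟩
  have hQ0 : 0 < Q := by omega
  have hQR : (0 : ℝ) < Q := by exact_mod_cast hQ0
  have hmR : (2 : ℝ) ≤ m := by exact_mod_cast hm
  have hNR : 8 * (m : ℝ) * Q ≤ N := by exact_mod_cast hN'
  have hN0 : (0 : ℝ) < N := lt_of_lt_of_le (by positivity) hNR
  have hρ0 : (2 : ℝ) ≤ ρ := by exact_mod_cast hρ
  have hptc : ∀ p q : ℕ, wt P a N ρ p q ≠ 0 → (p ∈ P ∧ q ∈ P ∧ p ≠ q ∧ (∃ n, Meet a N p q n) ∧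
          ρ ≤ (AA P a (pt a N p q)).card) := by
    intro p q h
    by_contra hcon
    unfold wt at h
    exact h (if_neg hcon)
  refine { hprime := fun p hp => (hP p hp).1, hlow := fun p hp => (hP p hp).2.1,
           hup := fun p hp => (hP p hp).2.2, hm := hm, hQ := hQ, hne := hne, hE := ?_,
           f0 := fun p q => wt_nonneg p q, f1 := fun p q => wt_le_one p q,
           fsymm := fun p _ q _ => wt_symm hP' hN p q, fdiag := ?_, fmeet := ?_,
           degU := ?_, degC := ?_, degL := ?_, hBP := hBP, hBcard := hB }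
  · change (0 : ℝ) < (ρ : ℝ) * N / Q
    positivity
  · intro p
    change wt P a N ρ p p = 0
    unfold wt
    rw [if_neg]
    rintro ⟨-, -, h, -⟩
    exact h rfl
  · intro p _ q _ h
    exact pt_spec (hptc p q h).2.2.2.1
  · intro p hp
    change ∑ q ∈ P, wt P a N ρ p q ≤ 2 * ((ρ : ℝ) * N / Q)
    have h1 := sum_wt_le (P := P) (a := a) (N := N) (ρ := ρ) (p := p)
      ((Icc (1 : ℤ) N).filter (fun n => (p : ℤ) ∣ n - a p)) P (by
        intro q _ hq
        have h2 := pt_spec (hptc p q hq).2.2.2.1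
        exact Finset.mem_filter.2 ⟨Finset.mem_Icc.2 ⟨h2.1, h2.2.1⟩, h2.2.2.1⟩)
    have h2 := class_card_int' N (a p) p (lt_of_lt_of_le hQ0 (hP p hp).2.1)
    have h3 : (N : ℝ) / p ≤ N / Q := by
      have : (Q : ℝ) ≤ p := by exact_mod_cast (hP p hp).2.1
      gcongr
    have h4 : (1 : ℝ) ≤ N / Q := by
      rw [le_div_iff₀ hQR]
      nlinarith
    calc ∑ q ∈ P, wt P a N ρ p q ≤ ρ * _ := h1
      _ ≤ ρ * ((N : ℝ) / Q + N / Q) := by
        refine mul_le_mul_of_nonneg_left ?_ (by positivity)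
        linarith
      _ = 2 * ((ρ : ℝ) * N / Q) := by ring
  · intro p hp j
    change ∑ q ∈ P.filter (fun q => (pt a N p q).toNat * (8 * m) / N = j), wt P a N ρ p q ≤
      3 * ((ρ : ℝ) * N / Q) / (8 * m)
    have hN0' : 0 < N := by exact_mod_cast hN0
    have hp0 : 0 < p := lt_of_lt_of_le hQ0 (hP p hp).2.1
    set T := (Icc (1 : ℤ) N).filter (fun n => (p : ℤ) ∣ n - a p ∧ n.toNat * (8 * m) / N = j)
      with hTdef
    have h1 := sum_wt_le (P := P) (a := a) (N := N) (ρ := ρ) (p := p) T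
      (P.filter (fun q => (pt a N p q).toNat * (8 * m) / N = j)) (by
        intro q hq hw
        have h2 := pt_spec (hptc p q hw).2.2.2.1
        exact Finset.mem_filter.2 ⟨Finset.mem_Icc.2 ⟨h2.1, h2.2.1⟩, h2.2.2.1,
          (Finset.mem_filter.1 hq).2⟩)
    have h2 : T.card ≤ (N / (8 * m)) / p + 1 := by
      refine card_short T p (N / (8 * m)) hp0 ?_
      intro x hx y hy
      obtain ⟨hx1, hx2, hx3⟩ := Finset.mem_filter.1 hx
      obtain ⟨hy1, hy2, hy3⟩ := Finset.mem_filter.1 hy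
      rw [Finset.mem_Icc] at hx1 hy1
      refine ⟨?_, ?_⟩
      · have := dvd_sub hx2 hy2
        rwa [sub_sub_sub_cancel_right] at this
      · have h3 : x.toNat * (8 * m) < (j + 1) * N := by
          have h4 := Nat.div_add_mod (x.toNat * (8 * m)) N
          have h5 := Nat.mod_lt (x.toNat * (8 * m)) hN0'
          rw [hx3] at h4
          have h6 : (j + 1) * N = N * j + N := by ring
          omega
        have h4 : j * N ≤ y.toNat * (8 * m) := by
          rw [← hy3]
          exact Nat.div_mul_le_self _ _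
        have h5 : x.toNat * (8 * m) ≤ y.toNat * (8 * m) + N := by
          have h6 : (j + 1) * N = j * N + N := by ring
          omega
        have h6 : (x.toNat - y.toNat) * (8 * m) ≤ N := by
          rw [Nat.sub_mul]
          omega
        have h7 : x.toNat - y.toNat ≤ N / (8 * m) := by
          rw [Nat.le_div_iff_mul_le (by omega)]
          exact h6
        have h8 : x - y ≤ ((x.toNat - y.toNat : ℕ) : ℤ) := by omega
        calc x - y ≤ ((x.toNat - y.toNat : ℕ) : ℤ) := h8
          _ ≤ _ := by exact_mod_cast h7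
    have h3 : (T.card : ℝ) ≤ N / (8 * m) / Q + 1 := by
      have h4 : (T.card : ℝ) ≤ ((N / (8 * m) / p : ℕ) : ℝ) + 1 := by exact_mod_cast h2
      have h5 : ((N / (8 * m) / p : ℕ) : ℝ) ≤ ((N / (8 * m) : ℕ) : ℝ) / p := Nat.cast_div_le
      have h6 : ((N / (8 * m) : ℕ) : ℝ) ≤ (N : ℝ) / ((8 * m : ℕ) : ℝ) := Nat.cast_div_le
      have h7 : (Q : ℝ) ≤ p := by exact_mod_cast (hP p hp).2.1
      have h8 : ((N / (8 * m) : ℕ) : ℝ) / p ≤ (N : ℝ) / (8 * m) / Q := by
        push_cast at h6
        exact div_le_div₀ (by positivity) h6 hQR h7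
      linarith
    have h4 : (1 : ℝ) ≤ N / (8 * m) / Q := by
      rw [le_div_iff₀ hQR, le_div_iff₀ (by positivity)]
      linarith
    calc ∑ q ∈ P.filter (fun q => (pt a N p q).toNat * (8 * m) / N = j), wt P a N ρ p q
        ≤ ρ * (T.card : ℝ) := h1
      _ ≤ ρ * (3 * ((N : ℝ) / (8 * m) / Q)) := by
        refine mul_le_mul_of_nonneg_left ?_ (by positivity)
        linarith
      _ = 3 * ((ρ : ℝ) * N / Q) / (8 * m) := by
        field_simp
  · intro p hp hpB
    change (ρ : ℝ) * N / Q / 16 ≤ ∑ q ∈ P, wt P a N ρ p q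
    set C := (Icc (1 : ℤ) N).filter (fun n => (p : ℤ) ∣ n - a p) with hC
    set T := C.filter (fun n => ρ ≤ (AA P a n).card) with hTdef
    have hp0 : 0 < p := lt_of_lt_of_le hQ0 (hP p hp).2.1
    have h1 : (ρ : ℝ) / 2 * T.card ≤ ∑ q ∈ P, wt P a N ρ p q := by
      refine le_sum_wt hP' hN hρ hp T ?_
      intro n hn
      obtain ⟨hn1, hn2⟩ := Finset.mem_filter.1 hn
      obtain ⟨hn3, hn4⟩ := Finset.mem_filter.1 hn1
      exact ⟨Finset.mem_Icc.1 hn3, hn4, hn2⟩
    have h2 : C.card = T.card + (light P a N ρ p).card := by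
      rw [← Finset.card_filter_add_card_filter_not (s := C) (fun n => ρ ≤ (AA P a n).card)]
      congr 2
      ext n
      simp only [hC, light, Finset.mem_filter, not_le]
      tauto
    have h3 := class_card_int N (a p) p hp0
    have h4 : ((light P a N ρ p).card : ℝ) * (4 * Q) ≤ N := by exact_mod_cast hL p hp hpB
    have h5 : ((light P a N ρ p).card : ℝ) ≤ N / Q / 4 := by
      rw [le_div_iff₀ (by norm_num), le_div_iff₀ hQR]
      linarith
    have h6 : (1 : ℝ) ≤ N / Q / 16 := by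
      rw [le_div_iff₀ (by norm_num), le_div_iff₀ hQR]
      nlinarith
    have h7 : (16 / 17 : ℝ) * (N / Q) ≤ N / p := by
      have h8 : (8 * m * p : ℝ) ≤ (8 * m + 1) * Q := by exact_mod_cast (hP p hp).2.2
      have h9 : (p : ℝ) ≤ 17 / 16 * Q := by
        have h10 : (8 * m : ℝ) * p ≤ (8 * m : ℝ) * (17 / 16 * Q) := by nlinarith
        exact le_of_mul_le_mul_left h10 (by linarith)
      have hp0' : (0 : ℝ) < p := by exact_mod_cast hp0
      rw [← mul_div_assoc, div_le_div_iff₀ hQR hp0']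
      nlinarith
    have h8 : (C.card : ℝ) = T.card + (light P a N ρ p).card := by exact_mod_cast h2
    have h9 : (N : ℝ) / Q / 8 ≤ T.card := by
      rw [← hC] at h3
      have h10 : (0 : ℝ) < N / Q := by positivity
      linarith
    calc (ρ : ℝ) * N / Q / 16 = (ρ : ℝ) / 2 * (N / Q / 8) := by ring
      _ ≤ (ρ : ℝ) / 2 * T.card := mul_le_mul_of_nonneg_left h9 (by positivity)
      _ ≤ _ := h1

end Pool.Agent.Helper12.TS.build
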